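import Pool.Agent.L7h8.DD.Top
import Pool.Agent.L7h8.DD.Fin
import Pool.Agent.L7h80.DD.NB

/-!
# MP_d40431_gt: the word problem reduces to diffeomorphism of homeomorphic 4-manifolds

Authors: helper8, helper20 (who found the same reduction independently), helper80 (who
connected the theorem of Novikov and Boone, proved in the library `Helper270`).
-/

namespace Pool.Agent.Results.MP_d40431_gt.NoAlgorithm

open Pool.Agent.L7h8.DD

/-- the pair of manifolds of the word `w` is PL homeomorphic iff `w = 1` -/
theorem iff_trivial {m : ℕ} (R : List (Word m)) (F : Handles (m + 2) → ℕ → ℕ → ℕ → Cx)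
    (H : Handlebodies (m + 2) F) (w : Word m) :
    PLHomeo (F (hd R w) 1 0 0) (F (hd R w) 0 11 0) ↔ IsTrivial R w := by
  constructor
  · intro h
    by_contra hw
    have := H.rokhlin_kreck _ (spinCover_of_not_trivial R w hw) _ _ _ _ h
    simp [Nat.ModEq] at this
  · intro h
    have h1 := zw_trivial R w h
    have h2 := H.surgery (rels R w) (zw w) h1 1 0 0
    have h3 := H.surgery (rels R w) (zw w) h1 0 11 0
    have h4 := H.mandelbaum_moishezon ((rels R w).map (fun r => (r, false))) 0 0 1
    exact (h2.trans h4).trans h3.symm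

/-- an algorithm for the promise problem solves all word problems -/
theorem word_problem (hb : ∀ m, ∃ F, Handlebodies m F) (adm : Cx → Prop)
    (hadm : ∀ K, Closed4 K → adm K) (A : Cx × Cx →. Bool) (hs : Solves A adm)
    (m : ℕ) (R : List (Word m)) : ComputablePred (fun w : Word m => IsTrivial R w) := by
  obtain ⟨hA, hs⟩ := hs
  obtain ⟨F, H⟩ := hb (m + 2)
  have hc : ∀ a b c : ℕ, Computable (fun w : Word m => F (hd R w) a b c) := fun a b c =>
    H.computable.comp (Computable.pair (primrec_hd R).to_comp
      (Computable.const ((a, b, c) : ℕ × ℕ × ℕ)))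
  refine decides A hA (fun w => (F (hd R w) 1 0 0, F (hd R w) 0 11 0))
    (Computable.pair (hc 1 0 0) (hc 0 11 0)) _ (fun w => ?_)
  obtain ⟨b, hb1, hb2⟩ := hs _ _ (hadm _ (H.closed (hd R w) 1 0 0))
    (hadm _ (H.closed (hd R w) 0 11 0)) (H.freedman (hd R w) 0 0 0)
  exact ⟨b, hb1, hb2.trans (iff_trivial R F H w)⟩

/-- the algebraic condition that the universal cover is spin detects `w ≠ 1` -/
theorem spinCover_iff {m : ℕ} (R : List (Word m)) (w : Word m) :
    SpinCover (hd R w) ↔ ¬ IsTrivial R w := by
  constructor
  · rintro ⟨E, iE, ζ, φ, h1, h2, h3, h4⟩ hw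
    apply h1
    have hz : φ (FreeGroup.mk (zw w)) = ζ := by
      have := h4 (zw w, true) (by unfold hd; exact List.mem_cons_self)
      simpa using this
    have hk : FreeGroup.mk (zw w) ∈ φ.ker := by
      refine (Subgroup.normalClosure_le_normal ?_ : _ ≤ φ.ker) (zw_trivial R w hw)
      rintro g ⟨r, hr, rfl⟩
      have := h4 (r, false) (by
        unfold hd; exact List.mem_cons_of_mem _ (List.mem_map_of_mem hr))
      simpa using this
    rw [← hz]; exact hk
  · exact spinCover_of_not_trivial R w

/-- **Undecidability.** (1) For a word `w` in a finitely presented group `<R>` there is a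
computable set `hd R w` of handle data for which the universal cover is spin iff `w ≠ 1`;
(2) so no algorithm decides whether the universal cover of a closed 4-manifold given by handle
data is spin. (3) Under the theorems on 4-manifolds in `Handlebodies`: no algorithm decides
whether two homeomorphic smooth compact 4-manifolds, given by triangulations, are
diffeomorphic, and there is none for closed connected 4-manifolds. -/
theorem result :
    (∀ (m : ℕ) (R : List (Word m)), Computable (hd R) ∧
      ∀ w : Word m, SpinCover (hd R w) ↔ ¬ IsTrivial R w) ∧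
    (∃ m : ℕ, ¬ ComputablePred (fun D : Handles m => SpinCover D)) ∧
    ((∀ m, ∃ F, Handlebodies m F) →
      (¬ ∃ A : Cx × Cx →. Bool, Solves A Manifold4) ∧
        ¬ ∃ A : Cx × Cx →. Bool, Solves A Closed4) := by
  classical
  have h1 : ∀ (m : ℕ) (R : List (Word m)), Computable (hd R) ∧
      ∀ w : Word m, SpinCover (hd R w) ↔ ¬ IsTrivial R w :=
    fun m R => ⟨(primrec_hd R).to_comp, spinCover_iff R⟩
  obtain ⟨m, R, hR⟩ := Pool.Agent.L7h80.DD.novikovBoone
  refine ⟨h1, ⟨m + 2, fun hc => hR ?_⟩, fun hb => ?_⟩
  · obtain ⟨f, hf, hfe⟩ := ComputablePred.computable_iff.1 hc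
    refine ComputablePred.computable_iff.2
      ⟨fun w => !(f (hd R w)), Primrec.not.to_comp.comp (hf.comp (h1 m R).1), ?_⟩
    funext w
    have h2 : SpinCover (hd R w) = (f (hd R w) = true) := congrFun hfe (hd R w)
    have h3 := (h1 m R).2 w
    rw [h2] at h3
    apply propext
    cases hb : f (hd R w) <;> simp_all
  · have key : ∀ adm : Cx → Prop, (∀ K, Closed4 K → adm K) →
        ¬ ∃ A : Cx × Cx →. Bool, Solves A adm := fun adm hadm ⟨A, hA⟩ =>
      hR (word_problem hb adm hadm A hA m R)
    exact ⟨key _ (fun K hK σ hσ v hv => Or.inl (hK.2 σ hσ v hv)), key _ (fun K hK => hK)⟩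

end Pool.Agent.Results.MP_d40431_gt.NoAlgorithm
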